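import Pool.Agent.Q96.ID.All

/-!
# The injective dimension of `c_0` under GCH (problem MP_667da3_an)

If `2 ^ ℵ_j = ℵ_(j+1)` for all `j < m` then `c_0` has no injective resolution of length `m + 1`, that
is, `id(c_0) ≥ m + 2`.  So CH implies `id(c_0) ≥ 3`, and GCH (below `ℵ_ω`) implies `id(c_0) = ∞`: no
finite value of `id(c_0)`, and no finite upper bound for it, can be proved in ZFC.
-/

open Cardinal Filter Topology Q96.ID

namespace Pool.Agent.Results.MP_667da3_an.InfiniteUnderGCH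

/-- `c_0`, the real or complex null sequences with the sup norm. -/
def c0 (𝕜 : Type) [RCLike 𝕜] : Submodule 𝕜 (Linf 𝕜 ℕ) where
  carrier := {f | Tendsto (fun n => f n) atTop (𝓝 0)}
  add_mem' := by
    intro f g hf hg
    simpa using Tendsto.add hf hg
  zero_mem' := tendsto_const_nhds
  smul_mem' := by
    intro c f hf
    simpa using Tendsto.const_smul hf c

theorem c0_eq (𝕜 : Type) [RCLike 𝕜] : c0 𝕜 = A 𝕜 ℵ₀ le_rfl ℕ := by
  ext f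
  show Tendsto (fun n => f n) atTop (𝓝 0) ↔ ∀ ε : ℝ, 0 < ε → #{n // ε < ‖f n‖} < ℵ₀
  rw [Metric.tendsto_atTop]
  constructor
  · intro h ε hε
    obtain ⟨N, hN⟩ := h ε hε
    refine lt_aleph0_iff_set_finite.2 ((Set.finite_lt_nat N).subset ?_)
    intro n hn
    by_contra hcon
    have h1 := hN n (not_lt.1 hcon)
    rw [dist_zero_right] at h1
    exact absurd hn (not_lt.2 h1.le)
  · intro h ε hε
    have h1 : {n : ℕ | ε / 2 < ‖f n‖}.Finite :=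
      lt_aleph0_iff_set_finite.1 (h (ε / 2) (by positivity))
    obtain ⟨N, hN⟩ := h1.bddAbove
    refine ⟨N + 1, fun n hn => ?_⟩
    rw [dist_zero_right]
    by_contra hcon
    have h2 : n ∈ {n | ε / 2 < ‖f n‖} := by
      show ε / 2 < ‖f n‖
      linarith
    have h3 := hN h2
    omega

/-- `id(X) > N`: there is no injective resolution `0 → X → E_0 → ⋯ → E_n → 0` with `n ≤ N`, and for all
`n ≤ N` there is a Banach space `Y` with `Ext^(n+1)(Y, X) ≠ 0`, computed with any injective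
resolution of `X` (and there are such resolutions). -/
def DimGT (𝕜 : Type) [RCLike 𝕜] (X : Type) [NormedAddCommGroup X] [NormedSpace 𝕜 X] (N : ℕ) :
    Prop :=
  (∀ n ≤ N, ¬ IdLE 𝕜 n X) ∧ Nonempty (InjRes 𝕜 X) ∧ ∀ n ≤ N, ∀ I : InjRes 𝕜 X,
    ∃ (Y : Type) (_ : NormedAddCommGroup Y) (_ : NormedSpace 𝕜 Y) (_ : CompleteSpace Y),
      ¬ I.ExtSuccVanishes Y n

theorem dimGT (𝕜 : Type) [RCLike 𝕜] (X : Type) [NormedAddCommGroup X] [NormedSpace 𝕜 X]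
    [CompleteSpace X] (N : ℕ) (h : ¬ IdLE 𝕜 N X) : DimGT 𝕜 X N := by
  have h1 : ∀ n ≤ N, ¬ IdLE 𝕜 n X := fun n hn hX => h (idLE_mono 𝕜 X hn hX)
  exact ⟨h1, exists_injRes enough 𝕜 X, fun n hn I => I.exists_ext idb n (h1 n hn)⟩

/-- **The injective dimension of `c_0`.**  (1) If `2 ^ ℵ_j = ℵ_(j+1)` for all `j < m` then
`id(c_0) ≥ m + 2`, and `Ext^n(·, c_0) ≠ 0` for `1 ≤ n ≤ m + 2`.  (2) If `2 ^ ℵ_j = ℵ_(j+1)` for all `j`
then `id(c_0) = ∞`, and `Ext^n(·, c_0) ≠ 0` for all `n ≥ 1`.  (3) The same for the spaces `A_κ(Γ)`,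
`κ = #Γ = ℵ_k`, of the bounded functions `f` on `Γ` such that `{|f| > ε}` has fewer than `κ` elements
for all `ε > 0`: if `2 ^ ℵ_j = ℵ_(j+1)` for all `j < k + m` then `id(A_κ(Γ)) ≥ m + 2`. -/
theorem result (𝕜 : Type) [RCLike 𝕜] :
    (∀ m : ℕ, (∀ j < m, CH j) → DimGT 𝕜 (c0 𝕜) (m + 1)) ∧
    ((∀ j, CH j) → ∀ N, DimGT 𝕜 (c0 𝕜) N) ∧
    ∀ m k : ℕ, (∀ j < k + m, CH j) → ∀ (κ : Cardinal.{0}) (hκ : ℵ₀ ≤ κ), κ = ℵ_ (k : Ordinal) →
      ∀ Γ : Type, #Γ = κ → DimGT 𝕜 (A 𝕜 κ hκ Γ) (m + 1) := by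
  have h3 : ∀ m k : ℕ, (∀ j < k + m, CH j) → ∀ (κ : Cardinal.{0}) (hκ : ℵ₀ ≤ κ),
      κ = ℵ_ (k : Ordinal) → ∀ Γ : Type, #Γ = κ → DimGT 𝕜 (A 𝕜 κ hκ Γ) (m + 1) := by
    intro m k hk κ hκ hκk Γ hΓ
    have : CompleteSpace (A 𝕜 κ hκ Γ) := (isClosed_A 𝕜 κ hκ Γ).completeSpace_coe
    exact dimGT 𝕜 _ _ (all_chain 𝕜 m k hk κ hκ hκk Γ hΓ)
  have h1 : ∀ m : ℕ, (∀ j < m, CH j) → DimGT 𝕜 (c0 𝕜) (m + 1) := by
    intro m hm
    rw [c0_eq]
    exact h3 m 0 (by simpa using hm) ℵ₀ le_rfl (by simp) ℕ mk_nat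
  refine ⟨h1, fun h N => ?_, h3⟩
  obtain ⟨a, b, c⟩ := h1 N (fun j _ => h j)
  exact ⟨fun n hn => a n (hn.trans (Nat.le_succ N)), b, fun n hn => c n (hn.trans (Nat.le_succ N))⟩

end Pool.Agent.Results.MP_667da3_an.InfiniteUnderGCH
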